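import Pool.Agent.N871.P17G.Flip
import Pool.Agent.N816.P17.C2B

/-!
# The divisor sums with genus characters, even products (project P17G): `S_C2GE`
-/

set_option autoImplicit false

namespace Pool.Agent.N871.G17

open Finset
open Pool.Agent.Z700 (hh fac)
open Pool.Agent.N969.P15 (V3 tw ep2 Qc Qe psp un Ev tb c2 chE psp2)
open Pool.Agent.N969.P17G
open Pool.Agent.N972.P17 (Cp Cm Cme Cpe locE WWe)
open Pool.Agent.N295.P15.E (c2_mul c2_sq c2_even c2_one oc oc_nd cq Ps cq_two cq_odd Fd no kq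
  prod_nd chi8 jac_four podd)
open Pool.Agent.Y574.Z7 (chp chp_self chp_nd)

/-- the sum with right kernel symbols only -/
theorem WBs_empty {n S T : ℕ} (h : Ev n) : WBs n ∅ S T = Pool.Agent.N972.P17.WWe n S T := by
  have h2 : 2 ∈ n.primeFactors := (Fd.mk h).mem2
  unfold WBs Pool.Agent.N972.P17.WWe
  refine Finset.sum_congr rfl fun a _ => Finset.sum_congr rfl fun a' _ => ?_
  unfold wt
  rw [← Finset.mul_prod_erase _ _ h2, if_neg (Finset.notMem_empty 2)]
  congr 1
  refine Finset.prod_congr rfl fun q hq => ?_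
  rw [Finset.mem_erase] at hq
  rw [if_neg (Finset.notMem_empty q)]
  exact if_neg hq.1

/-- the sum with left kernel symbols at the primes dividing `A` -/
theorem WBs_A {A m S T : ℕ} (hA : A ≠ 0) (hm : m ≠ 0) (hc : Nat.Coprime A m) :
    WBs (A * m) A.primeFactors S T = WgE A m S T := by
  have hu : (A * m).primeFactors = A.primeFactors ∪ m.primeFactors :=
    Nat.primeFactors_mul hA hm
  have hd : Disjoint A.primeFactors m.primeFactors := hc.disjoint_primeFactors
  unfold WBs WgE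
  refine Finset.sum_congr rfl fun a _ => Finset.sum_congr rfl fun a' _ => ?_
  unfold wt
  rw [hu, Finset.prod_union hd]
  congr 1
  · refine Finset.prod_congr rfl fun q hq => ?_
    rw [if_pos hq]
    rfl
  · refine Finset.prod_congr rfl fun q hq => ?_
    rw [if_neg (Finset.disjoint_right.1 hd hq)]
    rfl

/-- the symbol of `2` -/
theorem Ps_two {n : ℕ} (h : Ev n) : Ps n 2 = t2 n := by
  have hF : Fd n := ⟨h⟩
  have h1 : ∀ q ∈ n.primeFactors.erase 2, ¬ q ∣ 2 := by
    intro q hq hd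
    rw [Finset.mem_erase] at hq
    exact hq.1 ((Nat.prime_dvd_prime_iff_eq (Nat.prime_of_mem_primeFactors hq.2)
      Nat.prime_two).1 hd)
  have h2 : oc n 2 = 1 := by
    have := cq_self (n := n) Nat.prime_two
    rwa [cq_two] at this
  rw [hF.Ps_split, h2, one_mul, prod_nd h1]
  obtain ⟨δ, hd, ho, hc⟩ := hF.dec
  rw [Nat.cast_ofNat, jacobiSym.at_two ho, chi8 ho]
  have ho' : no n % 2 = 1 := Nat.odd_iff.1 ho
  unfold t2
  rcases hc with ⟨h1, h3, h4⟩ | ⟨h1, h3, h4⟩ | ⟨h1, h3, h4⟩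
  · subst h1
    rw [if_pos (show n % 8 = 4 by omega)]
    refine if_congr ?_ rfl rfl
    omega
  · subst h1
    rw [if_neg (show ¬ n % 8 = 4 by omega)]
    refine if_congr ?_ rfl rfl
    have : n / 8 = no n := by omega
    rw [this]
  · subst h1
    rw [if_neg (show ¬ n % 8 = 4 by omega)]
    refine if_congr ?_ rfl rfl
    have : n / 8 = no n := by omega
    rw [this]

theorem kap_neg {n p : ℕ} (u : ℤ) : kap n p (-u) = kap n p (-1) * kap n p u := by
  rw [← kap_mul]
  congr 1
  ring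

/-- the value at `-1` -/
theorem kap_kq {n p : ℕ} (hp : p.Prime) : kap n p (-1) = kq n p := by
  unfold kap kq
  split_ifs with h
  · rfl
  · exact jacobiSym.at_neg_one (hp.odd_of_ne_two h)

/-- the sign of the flip at `2` -/
theorem sig_two {n T k : ℕ} (h : Ev n) (hT : T ≠ 0) :
    sig n T 2 = kap n 2 (-1) * sg2 k n T := by
  have e1 : padicValInt 2 (T : ℤ) = T.factorization 2 := by
    rw [padicValInt.of_nat, Nat.factorization_def _ Nat.prime_two]
  have hT' : ¬ (T : ℤ) = 0 := by exact_mod_cast hT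
  unfold sig sg2
  rw [if_neg hT', e1, Ps_two h, kap_neg]
  have e2 : kap n 2 ((T / 2 ^ T.factorization 2 : ℕ) : ℤ) =
      c2 n ((T : ℤ) / 2 ^ T.factorization 2) := by
    unfold kap
    rw [if_pos rfl]
    push_cast
    rfl
  rw [e2]
  ring

theorem jac_kap {n p : ℕ} (h2 : p ≠ 2) (u : ℤ) : jacobiSym u p = kap n p u := by
  unfold kap
  rw [if_neg h2]

theorem kap_four {n p : ℕ} (hp : p.Prime) (h2 : p ≠ 2) (u : ℤ) :
    kap n p (4 * u) = kap n p u := by
  rw [← jac_kap h2, ← jac_kap h2]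
  exact jac_four (hp.odd_of_ne_two h2) u

theorem kap_mod {n p : ℕ} (h2 : p ≠ 2) {u v : ℤ} (h : (p : ℤ) ∣ u - v) :
    kap n p u = kap n p v := by
  rw [← jac_kap h2, ← jac_kap h2]
  refine jacobiSym.mod_left' ?_
  have h1 : v ≡ u [ZMOD (p : ℤ)] := Int.modEq_iff_dvd.2 h
  exact h1.symm

/-- the sign of the flip at an odd prime -/
theorem sig_odd {n T k p : ℕ} (h : Ev n) (hT : T ≠ 0) (hk : k = 1 ∨ k = 2)
    (hTn : T < k * n) (hp : p ∈ n.primeFactors.erase 2)
    (hh1 : p ∣ T → p ∣ T / p → hh n (4 * (k * n - T) * T) p ≠ -1) :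
    sig n T p = kap n p (-1) * sgp k n p T := by
  have hF : Fd n := ⟨h⟩
  have hp' := Finset.mem_erase.1 hp
  have hpp := Nat.prime_of_mem_primeFactors hp'.2
  have h2 : p ≠ 2 := hp'.1
  have hpn : p ∣ n := Nat.dvd_of_mem_primeFactors hp'.2
  have hn0 : n ≠ 0 := hF.n0
  have hfac : n.factorization p = 1 := hF.fac1 hp
  have hJ : Ps n p = kap n p ((n / p : ℕ) : ℤ) := by
    rw [hF.Ps_p hp]
    unfold chp
    rw [hfac, pow_one, jac_kap (n := n) h2]
  have hnp : ¬ p ∣ n / p := by
    have := Nat.not_dvd_ordCompl hpp hn0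
    rwa [hfac, pow_one] at this
  have hJ2 := kap_sq (n := n) hpp (u := ((n / p : ℕ) : ℤ)) (by exact_mod_cast hnp)
  set v := T.factorization p with hv
  have hT0 : ¬ p ∣ T / p ^ v := Nat.not_dvd_ordCompl hpp hT
  have hTe : p ^ v * (T / p ^ v) = T := Nat.ordProj_mul_ordCompl_eq_self T p
  set T0 := T / p ^ v with hT0d
  have hT2 := kap_sq (n := n) hpp (u := (T0 : ℤ)) (by exact_mod_cast hT0)
  have hm1 : kap n p (-1) * kap n p (-1) = 1 := by
    refine kap_sq hpp fun h => ?_
    rw [dvd_neg] at h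
    have : p ∣ 1 := by exact_mod_cast h
    exact hpp.one_lt.ne' (Nat.dvd_one.1 this)
  unfold sig
  rw [← hv, ← hT0d, hJ, kap_neg]
  unfold sgp
  by_cases hpT : p ∣ T
  · rw [if_pos (dvd_cast hpT)]
    have hdiv : (T : ℤ) / (p : ℤ) = ((T / p : ℕ) : ℤ) := by push_cast; rfl
    rw [hdiv]
    have hv1 : 1 ≤ v := (hpp.dvd_iff_one_le_factorization hT).1 hpT
    by_cases hpT2 : p ∣ T / p
    · rw [if_pos (dvd_cast hpT2), jac_kap (n := n) h2]
      have hv2 : 2 ≤ v := by
        have : p ^ 2 ∣ T := by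
          obtain ⟨c, hc⟩ := hpT2
          refine ⟨c, ?_⟩
          rw [← Nat.mul_div_cancel' hpT, hc]
          ring
        exact (hpp.pow_dvd_iff_le_factorization hT).1 this
      have hnp' : p * (n / p) = n := Nat.mul_div_cancel' hpn
      have hTp : p * (T / p) = T := Nat.mul_div_cancel' hpT
      -- the other factor
      obtain ⟨S0, hS0⟩ : ∃ S0 : ℕ, k * n - T = p * S0 := by
        refine ⟨k * (n / p) - T / p, ?_⟩
        rw [Nat.mul_sub, hTp, ← mul_assoc, mul_comm p k, mul_assoc, hnp']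
      have hS0' : (S0 : ℤ) = k * ((n / p : ℕ) : ℤ) - ((T / p : ℕ) : ℤ) := by
        have h5 : (p : ℤ) * S0 = k * n - T := by
          have : ((k * n - T : ℕ) : ℤ) = ((p * S0 : ℕ) : ℤ) := by rw [hS0]
          rw [Nat.cast_sub hTn.le] at this
          push_cast at this
          linarith
        have h6 : (p : ℤ) * ((n / p : ℕ) : ℤ) = n := by exact_mod_cast hnp'
        have h7 : (p : ℤ) * ((T / p : ℕ) : ℤ) = T := by exact_mod_cast hTp
        have hp0 : (p : ℤ) ≠ 0 := by exact_mod_cast hpp.ne_zero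
        apply mul_left_cancel₀ hp0
        rw [h5, mul_sub, h7, ← h6]
        ring
      have hSk : kap n p (S0 : ℤ) = kap n p (k : ℤ) * kap n p ((n / p : ℕ) : ℤ) := by
        rw [← kap_mul]
        refine kap_mod h2 ?_
        rw [hS0']
        have : (p : ℤ) ∣ ((T / p : ℕ) : ℤ) := dvd_cast hpT2
        have e : (k : ℤ) * ((n / p : ℕ) : ℤ) - ((T / p : ℕ) : ℤ) - k * ((n / p : ℕ) : ℤ) =
          -((T / p : ℕ) : ℤ) := by ring
        rw [e, dvd_neg]
        exact this
      have hk0 : ¬ (p : ℤ) ∣ (k : ℤ) := by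
        intro h5
        have h6 : p ∣ k := by exact_mod_cast h5
        rcases hk with rfl | rfl
        · exact hpp.one_lt.ne' (Nat.dvd_one.1 h6)
        · exact h2 ((Nat.prime_dvd_prime_iff_eq hpp Nat.prime_two).1 h6)
      have hk2 := kap_sq (n := n) hpp hk0
      have hS00 : ¬ p ∣ S0 := by
        intro h5
        have h6 := kap_zero (n := n) hpp (dvd_cast h5)
        rw [h6] at hSk
        have h7 : (kap n p (k : ℤ) * kap n p ((n / p : ℕ) : ℤ)) *
            (kap n p (k : ℤ) * kap n p ((n / p : ℕ) : ℤ)) = 1 := by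
          calc _ = (kap n p (k : ℤ) * kap n p (k : ℤ)) *
              (kap n p ((n / p : ℕ) : ℤ) * kap n p ((n / p : ℕ) : ℤ)) := by ring
            _ = 1 := by rw [hk2, hJ2, one_mul]
        rw [← hSk] at h7
        norm_num at h7
      have hS00' : S0 ≠ 0 := by
        rintro rfl
        exact hS00 (dvd_zero p)
      have hT00 : T0 ≠ 0 := by
        intro h5
        rw [h5] at hT0
        exact hT0 (dvd_zero p)
      -- the discriminant
      have hp4 : ¬ p ∣ 4 := by
        intro h5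
        have h6 : p ∣ 2 := hpp.dvd_of_dvd_pow (show p ∣ 2 ^ 2 from h5)
        exact h2 ((Nat.prime_dvd_prime_iff_eq hpp Nat.prime_two).1 h6)
      have hD : 4 * (k * n - T) * T = p ^ (v + 1) * (4 * S0 * T0) := by
        rw [hS0]
        conv_lhs => rw [← hTe]
        ring
      have hndv : ¬ p ∣ 4 * S0 * T0 := by
        intro h5
        rcases (Nat.Prime.dvd_mul hpp).1 h5 with h5 | h5
        · rcases (Nat.Prime.dvd_mul hpp).1 h5 with h5 | h5
          · exact hp4 h5
          · exact hS00 h5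
        · exact hT0 h5
      have hne : 4 * S0 * T0 ≠ 0 := Nat.mul_ne_zero (Nat.mul_ne_zero (by norm_num) hS00') hT00
      have hDf : (4 * (k * n - T) * T).factorization p = v + 1 := by
        rw [hD, Nat.factorization_mul (pow_ne_zero _ hpp.ne_zero) hne, Finsupp.add_apply,
          hpp.factorization_pow, Finsupp.single_eq_same,
          Nat.factorization_eq_zero_of_not_dvd hndv]
      have hDd : 4 * (k * n - T) * T / p ^ (v + 1) = 4 * S0 * T0 := by
        rw [hD, Nat.mul_div_cancel_left _ (pow_pos hpp.pos _)]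
      have hh2 := hh1 hpT hpT2
      unfold hh at hh2
      rw [hDf, hDd] at hh2
      have hmk : kap n p (-(k : ℤ)) = kap n p (-1) * kap n p (k : ℤ) := kap_neg _
      rw [hmk, ← mul_assoc, hm1, one_mul]
      -- signs
      have pm : ∀ x : ℤ, x * x = 1 → x = 1 ∨ x = -1 := fun x hx => mul_self_eq_one_iff.1 hx
      by_cases hev : Even (v + 1)
      · rw [if_pos hev, jac_kap (n := n) h2] at hh2
        have e : (-((4 * S0 * T0 : ℕ) : ℤ)) = 4 * (-1 * ((S0 : ℤ) * (T0 : ℤ))) := by
          push_cast; ring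
        rw [e, kap_four hpp h2, kap_mul, kap_mul n p (S0 : ℤ), hSk] at hh2
        have hJv : kap n p ((n / p : ℕ) : ℤ) ^ v = kap n p ((n / p : ℕ) : ℤ) := by
          obtain ⟨w, hw⟩ : Odd v := by
            rcases Nat.even_or_odd v with h5 | h5
            · exfalso
              rw [Nat.even_add_one] at hev
              exact hev h5
            · exact h5
          rw [hw, pow_succ, pow_mul, sq, hJ2, one_pow, one_mul]
        rw [hJv]
        rcases pm _ hm1 with a1 | a1 <;> rcases pm _ hJ2 with a2 | a2 <;>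
          rcases pm _ hT2 with a3 | a3 <;> rcases pm _ hk2 with a4 | a4 <;>
          simp only [a1, a2, a3, a4] at hh2 ⊢ <;>
          first
            | exact absurd rfl hh2
            | rfl
      · rw [if_neg hev, jac_kap (n := n) h2] at hh2
        have e : (-((n / p * (4 * S0 * T0) : ℕ) : ℤ)) =
            4 * (-1 * (((n / p : ℕ) : ℤ) * ((S0 : ℤ) * (T0 : ℤ)))) := by
          push_cast; ring
        rw [e, kap_four hpp h2, kap_mul, kap_mul n p (((n / p : ℕ) : ℤ)),
          kap_mul n p (S0 : ℤ), hSk] at hh2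
        have hJv : kap n p ((n / p : ℕ) : ℤ) ^ v = 1 := by
          obtain ⟨w, hw⟩ : Even v := by
            rcases Nat.even_or_odd v with h5 | h5
            · exact h5
            · exact absurd (Nat.even_add_one.2 (Nat.not_even_iff_odd.2 h5)) hev
          rw [hw, ← two_mul, pow_mul, sq, hJ2, one_pow]
        rw [hJv]
        rcases pm _ hm1 with a1 | a1 <;> rcases pm _ hJ2 with a2 | a2 <;>
          rcases pm _ hT2 with a3 | a3 <;> rcases pm _ hk2 with a4 | a4 <;>
          simp only [a1, a2, a3, a4] at hh2 ⊢ <;>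
          first
            | exact absurd rfl hh2
            | rfl
    · have hc : ¬ (p : ℤ) ∣ ((T / p : ℕ) : ℤ) := by exact_mod_cast hpT2
      rw [if_neg hc, jac_kap (n := n) h2, kap_mul n p ((T / p : ℕ) : ℤ)]
      have hv' : v = 1 := by
        by_contra hne
        apply hpT2
        have h5 : p ^ 2 ∣ T := (hpp.pow_dvd_iff_le_factorization hT).2 (by omega)
        obtain ⟨c, hc⟩ := h5
        refine ⟨c, ?_⟩
        rw [hc, sq, mul_assoc, Nat.mul_div_cancel_left _ hpp.pos]
      rw [hv', pow_one] at hT0d ⊢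
      rw [hT0d]
      ring
  · have hv0 : v = 0 := Nat.factorization_eq_zero_of_not_dvd hpT
    have hc : ¬ (p : ℤ) ∣ (T : ℤ) := by exact_mod_cast hpT
    rw [hv0, pow_zero, Nat.div_one] at hT0d
    rw [if_neg hc, jac_kap (n := n) h2, hv0, pow_zero, mul_one, hT0d]

/-- the value at `-1` of a positive discriminant -/
theorem chi_prod {m : ℕ} (hm : Squarefree m) (n : ℕ) (h2 : ¬ 2 ∣ m) :
    ∏ p ∈ m.primeFactors, kq n p = ZMod.χ₄ (m : ℕ) := by
  have e : m = ∏ p ∈ m.primeFactors, p := (Nat.prod_primeFactors_of_squarefree hm).symm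
  conv_rhs => rw [e, Nat.cast_prod, map_prod]
  refine Finset.prod_congr rfl fun p hp => ?_
  unfold kq
  rw [if_neg]
  rintro rfl
  exact h2 (Nat.dvd_of_mem_primeFactors hp)

theorem CpE_ne {A : ℕ} (h : CpE A) : A ≠ 0 := by
  rintro rfl
  obtain ⟨M, hM, hs, h4, _⟩ := h
  omega

theorem Cme_ne {m : ℕ} (h : Cme m) : m ≠ 0 := (Fd.mk h.1).n0

theorem sq4 {m : ℕ} (h : Squarefree m) : m ≠ 0 := h.ne_zero

theorem j17_four (x : ℕ) : jacobiSym ((4 * x : ℕ) : ℤ) 17 = jacobiSym (x : ℤ) 17 := by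
  rw [Nat.cast_mul, jacobiSym.mul_left]
  have : jacobiSym ((4 : ℕ) : ℤ) 17 = 1 := by norm_num
  rw [this, one_mul]

/-- the product is an even discriminant of the class -/
theorem PrE_Cme {A m : ℕ} (h : PrE A m) : Cme (A * m) := by
  obtain ⟨h1, hc⟩ := h
  rcases h1 with ⟨hA, hm⟩ | ⟨hA, hm⟩
  · obtain ⟨M, rfl, hs, h4, hj⟩ := hA
    obtain ⟨hms, hm4, hmj⟩ := hm
    have hc' : Nat.Coprime M m := Nat.Coprime.coprime_mul_left hc
    refine ⟨⟨M * m, by ring, (Nat.squarefree_mul hc').2 ⟨hs, hms⟩, ?_⟩, ?_⟩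
    · rcases h4 with h4 | h4 <;> simp [Nat.mul_mod, h4, hm4]
    · rw [mul_assoc, j17_four, Nat.cast_mul, jacobiSym.mul_left, hj, hmj, one_mul]
  · obtain ⟨hs, h4, hj⟩ := hA
    obtain ⟨⟨m', rfl, hms, hm4⟩, hmj⟩ := hm
    have hc' : Nat.Coprime A m' := Nat.Coprime.coprime_mul_left_right hc
    refine ⟨⟨A * m', by ring, (Nat.squarefree_mul hc').2 ⟨hs, hms⟩, ?_⟩, ?_⟩
    · rcases hm4 with h5 | h5 <;> simp [Nat.mul_mod, h4, h5]
    · rw [Nat.cast_mul, jacobiSym.mul_left, hj, hmj, one_mul]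

theorem prod_neg {A m : ℕ} (h : PrE A m) : ∏ p ∈ A.primeFactors, kap (A * m) p (-1) = 1 := by
  have hn : Ev (A * m) := (PrE_Cme h).1
  have hF : Fd (A * m) := ⟨hn⟩
  have e0 : ∏ p ∈ A.primeFactors, kap (A * m) p (-1) = ∏ p ∈ A.primeFactors, kq (A * m) p :=
    Finset.prod_congr rfl fun p hp => kap_kq (Nat.prime_of_mem_primeFactors hp)
  rw [e0]
  obtain ⟨h1, hc⟩ := h
  rcases h1 with ⟨hA, hm⟩ | ⟨hA, hm⟩
  · have h2 := hF.kprod
    rw [Nat.primeFactors_mul (CpE_ne hA) hm.1.ne_zero,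
      Finset.prod_union hc.disjoint_primeFactors, chi_prod hm.1 (A * m)
        (by have := hm.2.1; omega), ZMod.χ₄_nat_three_mod_four hm.2.1] at h2
    linarith
  · rw [chi_prod hA.1 (A * m) (by have := hA.2.1; omega), ZMod.χ₄_nat_one_mod_four hA.2.1]

/-- the determinants -/
theorem pf_A {A m : ℕ} (h : PrE A m) : A ≠ 0 ∧ m ≠ 0 := by
  rcases h.1 with ⟨hA, hm⟩ | ⟨hA, hm⟩
  · exact ⟨CpE_ne hA, hm.1.ne_zero⟩
  · exact ⟨hA.1.ne_zero, Cme_ne hm⟩

/-- all the flips at the primes dividing `A` -/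
theorem prod_sig {A m T k : ℕ} (h : PrE A m) (hT : T ≠ 0) (hk : k = 1 ∨ k = 2)
    (hTn : T < k * (A * m))
    (hh1 : ∀ p ∈ (A * m).primeFactors.erase 2, p ∣ T → p ∣ T / p →
      hh (A * m) (4 * (k * (A * m) - T) * T) p ≠ -1) :
    ∏ p ∈ A.primeFactors, sig (A * m) T p = sgnE k A (A * m) T := by
  have hn : Ev (A * m) := (PrE_Cme h).1
  obtain ⟨hA0, hm0⟩ := pf_A h
  have hsub : A.primeFactors ⊆ (A * m).primeFactors :=
    Nat.primeFactors_mono (Dvd.intro m rfl) (Nat.mul_ne_zero hA0 hm0)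
  have e : ∏ p ∈ A.primeFactors, sig (A * m) T p =
      (∏ p ∈ A.primeFactors, kap (A * m) p (-1)) * sgnE k A (A * m) T := by
    unfold sgnE
    rw [← Finset.prod_mul_distrib]
    refine Finset.prod_congr rfl fun p hp => ?_
    by_cases h2 : p = 2
    · subst h2
      rw [if_pos rfl, sig_two hn hT]
    · rw [if_neg h2]
      have hp' : p ∈ (A * m).primeFactors.erase 2 := Finset.mem_erase.2 ⟨h2, hsub hp⟩
      exact sig_odd hn hT hk hTn hp' (hh1 p hp')
  rw [e, prod_neg h, one_mul]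

/-- evaluation of the divisor sums with genus characters, even products -/
theorem t_C2GE : S_C2GE := by
  intro A m h k hk T hT0 hTn h17
  have hcme := PrE_Cme h
  have hn : Ev (A * m) := hcme.1
  have hF : Fd (A * m) := ⟨hn⟩
  obtain ⟨hA0, hm0⟩ := pf_A h
  have hn17 : ¬ 17 ∣ A * m := by
    intro h5
    have h6 := hcme.2
    have h7 : jacobiSym ((A * m : ℕ) : ℤ) 17 = 0 := by
      rw [jacobiSym.mod_left, Int.emod_eq_zero_of_dvd (by exact_mod_cast h5)]
      norm_num
    rw [h7] at h6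
    norm_num at h6
  have hsub : A.primeFactors ⊆ (A * m).primeFactors :=
    Nat.primeFactors_mono (Dvd.intro m rfl) (Nat.mul_ne_zero hA0 hm0)
  have hST : ∀ q ∈ (A * m).primeFactors, q ∣ (k * (A * m) - T) + T := by
    intro q hq
    rw [Nat.sub_add_cancel hTn.le]
    exact Dvd.dvd.mul_left (Nat.dvd_of_mem_primeFactors hq) k
  have h1 : WgE A m (k * (A * m) - T) T =
      (∏ p ∈ A.primeFactors, sig (A * m) T p) *
        -(locE (A * m) (2 * T - k * (A * m : ℕ)) (4 * (k * (A * m) - T) * T)) := by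
    rw [← WBs_A hA0 hm0 h.2, flip_all hn17 hT0.ne' hST A.primeFactors hsub, WBs_empty hn,
      Pool.Agent.N816.P17.C2.t_C2E (A * m) hcme (k * (A * m))
        (by rcases hk with rfl | rfl
            · left; rw [one_mul]
            · right; rfl) T hT0 hTn h17]
    congr 2
    congr 1
    rw [Nat.cast_sub hTn.le]
    push_cast
    ring
  rw [h1]
  by_cases hl : locE (A * m) (2 * T - k * (A * m : ℕ)) (4 * (k * (A * m) - T) * T) = 0
  · rw [hl]
    ring
  · rw [prod_sig h hT0.ne' hk hTn]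
    · ring
    · intro p hp hpT _ hhp
      apply hl
      unfold locE
      split_ifs with ho
      · have hp' := Finset.mem_erase.1 hp
        have hpp := Nat.prime_of_mem_primeFactors hp'.2
        have hpn : p ∣ A * m := Nat.dvd_of_mem_primeFactors hp'.2
        have hp17 : p ≠ 17 := by
          rintro rfl
          exact hn17 hpn
        have hD0 : 4 * (k * (A * m) - T) * T ≠ 0 :=
          Nat.mul_ne_zero (Nat.mul_ne_zero (by norm_num) (by omega)) hT0.ne'
        have hpD : p ∣ 4 * (k * (A * m) - T) * T := Dvd.dvd.mul_left hpT _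
        have hmem : p ∈ ((4 * (k * (A * m) - T) * T).primeFactors.erase 2).erase 17 :=
          Finset.mem_erase.2 ⟨hp17, Finset.mem_erase.2 ⟨hp'.1, Nat.mem_primeFactors.2
            ⟨hpp, hpD, hD0⟩⟩⟩
        have hz : fac (A * m) (4 * (k * (A * m) - T) * T) p = 0 := by
          unfold fac
          rw [if_pos hpn, hhp]
          norm_num
        rw [Finset.prod_eq_zero hmem hz, mul_zero]
      · rfl

end Pool.Agent.N871.G17
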