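import Pool.Agent.N295.P15.C2EA
import Pool.Agent.N969.P17G.Defs2

/-!
# The flip lemma: left and right kernel symbols (project P17G)

`WBs n B S T` is the divisor sum with the left kernel symbols at the primes of `B` and the right kernel
symbols at the other primes dividing `n`. Exchanging the symbol at one prime `p` multiplies the sum
with a sign: toggle the `p`-part of `a'`.
-/

set_option autoImplicit false

namespace Pool.Agent.N871.G17

open Finset
open Pool.Agent.Z700 (hh fac)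
open Pool.Agent.N969.P15
open Pool.Agent.N969.P17G
open Pool.Agent.N295.P15.E (c2_mul c2_sq c2_even c2_one oc oc_nd cq cq_mul Ps cq_two cq_odd)
open Pool.Agent.Y574.Z7 (chp chp_self chp_nd)

/-- the character at `q` -/
def kap (n q : ℕ) (u : ℤ) : ℤ := if q = 2 then c2 n u else jacobiSym u q

theorem kap_mul (n q : ℕ) (u v : ℤ) : kap n q (u * v) = kap n q u * kap n q v := by
  unfold kap
  split_ifs
  · exact c2_mul n u v
  · exact jacobiSym.mul_left u v q

theorem kap_zero {n q : ℕ} (hq : q.Prime) {u : ℤ} (h : (q : ℤ) ∣ u) : kap n q u = 0 := by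
  unfold kap
  split_ifs with h2
  · subst h2
    exact c2_even n (Int.emod_eq_zero_of_dvd h)
  · rw [jacobiSym.eq_zero_iff]
    refine ⟨hq.ne_zero, ?_⟩
    have h1 : Int.gcd u q = q := by
      show Nat.gcd u.natAbs (q : ℤ).natAbs = q
      rw [Int.natAbs_natCast]
      exact Nat.gcd_eq_right (Int.natCast_dvd.1 h)
    rw [h1]
    exact hq.one_lt.ne'

theorem kap_sq {n q : ℕ} (hq : q.Prime) {u : ℤ} (h : ¬ (q : ℤ) ∣ u) :
    kap n q u * kap n q u = 1 := by
  unfold kap
  split_ifs with h2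
  · subst h2
    exact c2_sq n (by omega)
  · rw [← sq]
    apply jacobiSym.sq_one
    rw [Int.gcd_comm]
    exact (Int.isCoprime_iff_gcd_eq_one).1
      ((Prime.coprime_iff_not_dvd (Nat.prime_iff_prime_int.1 hq)).2 h)

theorem kap_pow (n q : ℕ) (u : ℤ) (t : ℕ) : kap n q (u ^ t) = kap n q u ^ t := by
  induction t with
  | zero =>
    rw [pow_zero, pow_zero]
    unfold kap
    split_ifs
    · exact c2_one n
    · exact jacobiSym.one_left q
  | succ t ih => rw [pow_succ, kap_mul, ih, pow_succ]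

/-- the right kernel symbol -/
def wR (n q a a' Y X : ℕ) : ℤ := if q = 2 then psp2 n a a' Y X else psp q a a' Y X

/-- the left kernel symbol -/
def wL (n q a a' Y X : ℕ) : ℤ := if q = 2 then psl2 n a a' Y X else psl q a a' Y X

theorem dvd_cast {q x : ℕ} (h : q ∣ x) : (q : ℤ) ∣ (x : ℤ) := by exact_mod_cast h

/-- the right kernel symbol, uniform -/
theorem wR_eq {n q a a' Y X : ℕ} (hq : q.Prime) (h : q ∣ a * Y + a' * X) :
    wR n q a a' Y X = if q ∣ a then kap n q ((a' * Y : ℕ) : ℤ)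
      else kap n q (-((a * X : ℕ) : ℤ)) := by
  by_cases ha : q ∣ a
  · rw [if_pos ha]
    have hax : q ∣ a' * X := by
      have : q ∣ a * Y := Dvd.dvd.mul_right ha Y
      exact (Nat.dvd_add_right this).1 h
    unfold wR kap
    split_ifs with h2
    · subst h2
      unfold psp2
      rw [if_neg (by omega)]
      split_ifs with h3
      · rfl
      · refine (c2_even n ?_).symm
        have : 2 ∣ a' * Y := Dvd.dvd.mul_right (by omega) Y
        omega
    · unfold psp
      by_cases hX : q ∣ X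
      · rw [if_pos ⟨ha, hX⟩]
      · rw [if_neg (by tauto)]
        have ha' : q ∣ a' := by
          rcases (Nat.Prime.dvd_mul hq).1 hax with h3 | h3
          · exact h3
          · exact absurd h3 hX
        have e1 := kap_zero (n := n) hq (u := -((a * X : ℕ) : ℤ))
          (by rw [dvd_neg]; exact dvd_cast (Dvd.dvd.mul_right ha X))
        have e2 := kap_zero (n := n) hq (u := ((a' * Y : ℕ) : ℤ))
          (dvd_cast (Dvd.dvd.mul_right ha' Y))
        unfold kap at e1 e2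
        rw [if_neg h2] at e1 e2
        rw [e1, e2]
  · rw [if_neg ha]
    unfold wR kap
    split_ifs with h2
    · subst h2
      unfold psp2
      rw [if_pos (by omega)]
    · unfold psp
      rw [if_neg (by tauto)]

/-- the left kernel symbol, uniform -/
theorem wL_eq {n q a a' Y X : ℕ} (hq : q.Prime) :
    wL n q a a' Y X = if q ∣ a ∧ q ∣ a' then kap n q (-((X * Y : ℕ) : ℤ))
      else kap n q ((a * a' : ℕ) : ℤ) := by
  unfold wL
  by_cases h2 : q = 2
  · subst h2
    rw [if_pos rfl]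
    unfold psl2 kap
    rw [if_pos rfl, if_pos rfl]
    by_cases ha : 2 ∣ a
    · by_cases ha' : 2 ∣ a'
      · rw [if_neg (by omega), if_pos (by omega), if_pos ⟨ha, ha'⟩]
      · rw [if_neg (by omega), if_neg (by omega), if_neg (by tauto)]
        refine (c2_even n ?_).symm
        have : 2 ∣ a * a' := Dvd.dvd.mul_right ha a'
        omega
    · by_cases ha' : 2 ∣ a'
      · rw [if_neg (by omega), if_neg (by omega), if_neg (by tauto)]
        refine (c2_even n ?_).symm
        have : 2 ∣ a * a' := Dvd.dvd.mul_left ha' a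
        omega
      · rw [if_pos (by omega), if_neg (by tauto)]
  · rw [if_neg h2]
    unfold psl kap
    rw [if_neg h2, if_neg h2]

section

variable {n p q a b Y X0 t : ℕ}

theorem prime_cast_ndvd (hq : q.Prime) (hp : p.Prime) (hqp : q ≠ p) : ¬ (q : ℤ) ∣ (p : ℤ) := by
  intro h
  have h1 : q ∣ p := by exact_mod_cast h
  exact hqp ((Nat.prime_dvd_prime_iff_eq hq hp).1 h1)

theorem dvd_pow_mul (hq : q.Prime) (hp : p.Prime) (hqp : q ≠ p) :
    q ∣ p ^ t * b ↔ q ∣ b := by
  constructor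
  · intro h
    rcases (Nat.Prime.dvd_mul hq).1 h with h | h
    · exact absurd ((Nat.prime_dvd_prime_iff_eq hq hp).1 (hq.dvd_of_dvd_pow h)) hqp
    · exact h
  · intro h
    exact Dvd.dvd.mul_left h _

/-- toggling at another prime, right kernel -/
theorem shR (hq : q.Prime) (hp : p.Prime) (hqp : q ≠ p) (h : q ∣ a * Y + p ^ t * (b * X0)) :
    wR n q a b Y (p ^ t * X0) = kap n q p ^ t * wR n q a (p ^ t * b) Y X0 := by
  have e1 : a * Y + b * (p ^ t * X0) = a * Y + p ^ t * (b * X0) := by ring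
  have e2 : a * Y + p ^ t * b * X0 = a * Y + p ^ t * (b * X0) := by ring
  rw [wR_eq hq (by rw [e1]; exact h), wR_eq hq (by rw [e2]; exact h)]
  have hs := kap_sq (n := n) hq (prime_cast_ndvd hq hp hqp)
  split_ifs with ha
  · have e3 : ((p ^ t * b * Y : ℕ) : ℤ) = (p : ℤ) ^ t * ((b * Y : ℕ) : ℤ) := by push_cast; ring
    rw [e3, kap_mul, kap_pow, ← mul_assoc, ← mul_pow, hs, one_pow, one_mul]
  · have e3 : (-((a * (p ^ t * X0) : ℕ) : ℤ)) = (p : ℤ) ^ t * (-((a * X0 : ℕ) : ℤ)) := by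
      push_cast; ring
    rw [e3, kap_mul, kap_pow]

/-- toggling at another prime, left kernel -/
theorem shL (hq : q.Prime) (hp : p.Prime) (hqp : q ≠ p) :
    wL n q a b Y (p ^ t * X0) = kap n q p ^ t * wL n q a (p ^ t * b) Y X0 := by
  rw [wL_eq hq, wL_eq hq]
  have hs := kap_sq (n := n) hq (prime_cast_ndvd hq hp hqp)
  have hd : (q ∣ a ∧ q ∣ p ^ t * b) ↔ (q ∣ a ∧ q ∣ b) := by
    rw [dvd_pow_mul hq hp hqp]
  rw [if_congr hd rfl rfl]
  split_ifs with ha
  · have e3 : (-((p ^ t * X0 * Y : ℕ) : ℤ)) = (p : ℤ) ^ t * (-((X0 * Y : ℕ) : ℤ)) := by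
      push_cast; ring
    rw [e3, kap_mul, kap_pow]
  · have e3 : ((a * (p ^ t * b) : ℕ) : ℤ) = (p : ℤ) ^ t * ((a * b : ℕ) : ℤ) := by push_cast; ring
    rw [e3, kap_mul, kap_pow, ← mul_assoc, ← mul_pow, hs, one_pow, one_mul]

/-- at the prime itself, first case -/
theorem atA (hp : p.Prime) (hb : ¬ p ∣ b) (hX : ¬ p ∣ X0) (h : p ∣ a * Y + p ^ t * (b * X0)) :
    wL n p a b Y (p ^ t * X0) =
      kap n p (-((b * X0 : ℕ) : ℤ)) * wR n p a (p ^ t * b) Y X0 := by
  have e2 : a * Y + p ^ t * b * X0 = a * Y + p ^ t * (b * X0) := by ring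
  rw [wL_eq hp, wR_eq hp (by rw [e2]; exact h), if_neg (by tauto)]
  split_ifs with ha
  · rw [kap_zero hp (dvd_cast (Dvd.dvd.mul_right ha b))]
    have ht : t ≠ 0 := by
      rintro rfl
      rw [pow_zero, one_mul] at h
      have h1 := (Nat.dvd_add_right (Dvd.dvd.mul_right ha Y)).1 h
      rcases (Nat.Prime.dvd_mul hp).1 h1 with h2 | h2
      · exact hb h2
      · exact hX h2
    have h3 : p ∣ p ^ t * b * Y := Dvd.dvd.mul_right (Dvd.dvd.mul_right (dvd_pow_self p ht) b) Y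
    rw [kap_zero hp (dvd_cast h3), mul_zero]
  · rw [← kap_mul]
    have hX' : ¬ (p : ℤ) ∣ (X0 : ℤ) := by exact_mod_cast hX
    have hs := kap_sq (n := n) hp hX'
    have e : (-((b * X0 : ℕ) : ℤ)) * (-((a * X0 : ℕ) : ℤ)) =
        ((a * b : ℕ) : ℤ) * ((X0 : ℤ) * (X0 : ℤ)) := by push_cast; ring
    rw [e, kap_mul n p _ ((X0 : ℤ) * (X0 : ℤ)), kap_mul n p (X0 : ℤ), hs, mul_one]

/-- at the prime itself, second case -/
theorem atB (hp : p.Prime) (ht : t ≠ 0) (hb : ¬ p ∣ b)
    (h : p ∣ a * Y + p ^ t * (b * X0)) :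
    wL n p a (p ^ t * b) Y X0 =
      kap n p (-((b * X0 : ℕ) : ℤ)) * wR n p a b Y (p ^ t * X0) := by
  have e2 : a * Y + b * (p ^ t * X0) = a * Y + p ^ t * (b * X0) := by ring
  rw [wL_eq hp, wR_eq hp (by rw [e2]; exact h)]
  have hpt : p ∣ p ^ t := dvd_pow_self p ht
  by_cases ha : p ∣ a
  · rw [if_pos ⟨ha, Dvd.dvd.mul_right hpt b⟩, if_pos ha, ← kap_mul]
    have hb' : ¬ (p : ℤ) ∣ (b : ℤ) := by exact_mod_cast hb
    have hs := kap_sq (n := n) hp hb'
    have e : (-((b * X0 : ℕ) : ℤ)) * (((b * Y : ℕ) : ℤ)) =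
        (-((X0 * Y : ℕ) : ℤ)) * ((b : ℤ) * (b : ℤ)) := by push_cast; ring
    rw [e, kap_mul n p _ ((b : ℤ) * (b : ℤ)), kap_mul n p (b : ℤ), hs, mul_one]
  · rw [if_neg (by tauto), if_neg ha]
    rw [kap_zero hp (dvd_cast (Dvd.dvd.mul_left (Dvd.dvd.mul_right hpt b) a)),
      kap_zero (u := -((a * (p ^ t * X0) : ℕ) : ℤ)) hp
        (by rw [dvd_neg]; exact dvd_cast (Dvd.dvd.mul_left (Dvd.dvd.mul_right hpt X0) a)),
      mul_zero]

end

/-- vanishing -/
theorem vR {n p a a' Y X : ℕ} (hp : p.Prime) (h : p ∣ a * Y + a' * X) (ha' : p ∣ a')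
    (hX : p ∣ X) : wR n p a a' Y X = 0 := by
  rw [wR_eq hp h]
  split_ifs
  · exact kap_zero hp (dvd_cast (Dvd.dvd.mul_right ha' Y))
  · exact kap_zero hp (by rw [dvd_neg]; exact dvd_cast (Dvd.dvd.mul_left hX a))

theorem vL {n p a a' Y X : ℕ} (hp : p.Prime) (ha' : p ∣ a')
    (hX : p ∣ X) : wL n p a a' Y X = 0 := by
  rw [wL_eq hp]
  split_ifs
  · exact kap_zero hp (by rw [dvd_neg]; exact dvd_cast (Dvd.dvd.mul_right hX Y))
  · exact kap_zero hp (dvd_cast (Dvd.dvd.mul_left ha' a))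

/-! ### the whole weight -/

/-- the weight -/
def wt (n : ℕ) (B : Finset ℕ) (a a' Y X : ℕ) : ℤ :=
  ∏ q ∈ n.primeFactors, if q ∈ B then wL n q a a' Y X else wR n q a a' Y X

theorem kap_cq {n p q : ℕ} (hq : q.Prime) (hp : p.Prime) (hqp : q ≠ p) :
    kap n q (p : ℤ) = cq n q p := by
  have hd : ¬ q ∣ p := fun h => hqp ((Nat.prime_dvd_prime_iff_eq hq hp).1 h)
  unfold kap
  split_ifs with h2
  · subst h2
    rw [cq_two, oc_nd hd]
  · rw [cq_odd h2, chp_nd hd]

theorem cq_self {n p : ℕ} (hp : p.Prime) : cq n p p = 1 := by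
  by_cases h2 : p = 2
  · subst h2
    rw [cq_two]
    unfold oc
    rw [Nat.prime_two.factorization_self, pow_one, Nat.div_self (by norm_num)]
    exact c2_one n
  · rw [cq_odd h2, chp_self hp]

/-- the product of the symbols -/
theorem Ps_erase {n p : ℕ} (hp : p ∈ n.primeFactors) :
    Ps n p = ∏ q ∈ n.primeFactors.erase p, kap n q (p : ℤ) := by
  have hpp := Nat.prime_of_mem_primeFactors hp
  unfold Ps
  rw [← Finset.mul_prod_erase _ _ hp, cq_self hpp, one_mul]
  refine Finset.prod_congr rfl fun q hq => ?_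
  rw [Finset.mem_erase] at hq
  exact (kap_cq (Nat.prime_of_mem_primeFactors hq.2) hpp hq.1).symm

section

variable {n p a b Y X0 t : ℕ} {B : Finset ℕ}

theorem wt_A (hp : p ∈ n.primeFactors) (hB : p ∉ B) (hb : ¬ p ∣ b) (hX : ¬ p ∣ X0)
    (h : ∀ q ∈ n.primeFactors, q ∣ a * Y + p ^ t * (b * X0)) :
    wt n (insert p B) a b Y (p ^ t * X0) =
      kap n p (-((b * X0 : ℕ) : ℤ)) * Ps n p ^ t * wt n B a (p ^ t * b) Y X0 := by
  have hpp := Nat.prime_of_mem_primeFactors hp
  unfold wt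
  rw [← Finset.mul_prod_erase _ _ hp, ← Finset.mul_prod_erase _ _ hp,
    if_pos (Finset.mem_insert_self p B), if_neg hB, atA hpp hb hX (h p hp), Ps_erase hp,
    ← Finset.prod_pow]
  have e : ∏ q ∈ n.primeFactors.erase p, (if q ∈ insert p B then wL n q a b Y (p ^ t * X0)
      else wR n q a b Y (p ^ t * X0)) = (∏ q ∈ n.primeFactors.erase p, kap n q (p : ℤ) ^ t) *
      ∏ q ∈ n.primeFactors.erase p, (if q ∈ B then wL n q a (p ^ t * b) Y X0
        else wR n q a (p ^ t * b) Y X0) := by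
    rw [← Finset.prod_mul_distrib]
    refine Finset.prod_congr rfl fun q hq => ?_
    rw [Finset.mem_erase] at hq
    have hqq := Nat.prime_of_mem_primeFactors hq.2
    have hm : q ∈ insert p B ↔ q ∈ B := by
      rw [Finset.mem_insert]
      exact ⟨fun h => h.resolve_left hq.1, Or.inr⟩
    rw [if_congr hm rfl rfl]
    split_ifs
    · exact shL hqq hpp hq.1
    · exact shR hqq hpp hq.1 (h q hq.2)
  rw [e]
  ring

theorem wt_B (hp : p ∈ n.primeFactors) (hB : p ∉ B) (ht : t ≠ 0) (hb : ¬ p ∣ b)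
    (h : ∀ q ∈ n.primeFactors, q ∣ a * Y + p ^ t * (b * X0)) :
    wt n (insert p B) a (p ^ t * b) Y X0 =
      kap n p (-((b * X0 : ℕ) : ℤ)) * Ps n p ^ t * wt n B a b Y (p ^ t * X0) := by
  have hpp := Nat.prime_of_mem_primeFactors hp
  unfold wt
  rw [← Finset.mul_prod_erase _ _ hp, ← Finset.mul_prod_erase _ _ hp,
    if_pos (Finset.mem_insert_self p B), if_neg hB, atB hpp ht hb (h p hp), Ps_erase hp,
    ← Finset.prod_pow]
  have e : ∏ q ∈ n.primeFactors.erase p, (if q ∈ insert p B then wL n q a (p ^ t * b) Y X0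
      else wR n q a (p ^ t * b) Y X0) = (∏ q ∈ n.primeFactors.erase p, kap n q (p : ℤ) ^ t) *
      ∏ q ∈ n.primeFactors.erase p, (if q ∈ B then wL n q a b Y (p ^ t * X0)
        else wR n q a b Y (p ^ t * X0)) := by
    rw [← Finset.prod_mul_distrib]
    refine Finset.prod_congr rfl fun q hq => ?_
    rw [Finset.mem_erase] at hq
    have hqq := Nat.prime_of_mem_primeFactors hq.2
    have hs := kap_sq (n := n) hqq (prime_cast_ndvd hqq hpp hq.1)
    have hs' : kap n q (p : ℤ) ^ t * kap n q (p : ℤ) ^ t = 1 := by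
      rw [← mul_pow, hs, one_pow]
    have hm : q ∈ insert p B ↔ q ∈ B := by
      rw [Finset.mem_insert]
      exact ⟨fun h => h.resolve_left hq.1, Or.inr⟩
    rw [if_congr hm rfl rfl]
    split_ifs
    · rw [shL (n := n) (a := a) (b := b) (Y := Y) (X0 := X0) (t := t) hqq hpp hq.1, ← mul_assoc,
        hs', one_mul]
    · rw [shR (n := n) (a := a) (b := b) (Y := Y) (X0 := X0) (t := t) hqq hpp hq.1 (h q hq.2),
        ← mul_assoc, hs', one_mul]
  rw [e]
  ring

end

theorem wt_zero {n p a a' Y X : ℕ} {B : Finset ℕ} (hp : p ∈ n.primeFactors)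
    (h : p ∣ a * Y + a' * X) (ha' : p ∣ a') (hX : p ∣ X) : wt n B a a' Y X = 0 := by
  have hpp := Nat.prime_of_mem_primeFactors hp
  refine Finset.prod_eq_zero hp ?_
  split_ifs
  · exact vL hpp ha' hX
  · exact vR hpp h ha' hX

/-- the divisor sum -/
def WBs (n : ℕ) (B : Finset ℕ) (S T : ℕ) : ℤ :=
  ∑ a ∈ S.divisors, ∑ a' ∈ T.divisors.filter (17 ∣ ·), wt n B a a' (S / a) (T / a')

/-- splitting the divisors at `p` -/
theorem sum_div_split {p t T0 : ℕ} (hp : p.Prime) (h17 : p ≠ 17) (hT0 : ¬ p ∣ T0) (ht : t ≠ 0)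
    (f : ℕ → ℤ)
    (hf : ∀ a' ∈ (p ^ t * T0).divisors, p ∣ a' → p ∣ p ^ t * T0 / a' → f a' = 0) :
    ∑ a' ∈ (p ^ t * T0).divisors.filter (17 ∣ ·), f a' =
      ∑ b ∈ T0.divisors.filter (17 ∣ ·), (f b + f (p ^ t * b)) := by
  have hT00 : T0 ≠ 0 := by
    rintro rfl
    exact hT0 (dvd_zero p)
  have hpt : p ^ t ≠ 0 := pow_ne_zero t hp.ne_zero
  have hc17 : ∀ b : ℕ, 17 ∣ p ^ t * b ↔ 17 ∣ b :=
    fun b => dvd_pow_mul (by norm_num) hp (Ne.symm h17)
  rw [← Finset.sum_filter_add_sum_filter_not _ (fun a' => p ∣ a'), Finset.sum_add_distrib,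
    add_comm]
  congr 1
  · refine Finset.sum_congr ?_ fun _ _ => rfl
    ext a'
    simp only [Finset.mem_filter, Nat.mem_divisors]
    constructor
    · rintro ⟨⟨⟨h1, h2⟩, h3⟩, h4⟩
      refine ⟨⟨?_, hT00⟩, h3⟩
      refine Nat.Coprime.dvd_of_dvd_mul_left ?_ h1
      exact (Nat.Coprime.pow_right t ((Nat.Prime.coprime_iff_not_dvd hp).2 h4).symm)
    · rintro ⟨⟨h1, h2⟩, h3⟩
      exact ⟨⟨⟨Dvd.dvd.mul_left h1 _, Nat.mul_ne_zero hpt hT00⟩, h3⟩,
        fun h4 => hT0 (h4.trans h1)⟩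
  · symm
    have hinj : Set.InjOn (fun b => p ^ t * b) (T0.divisors.filter (17 ∣ ·) : Finset ℕ) := by
      intro x _ y _ hxy
      exact Nat.eq_of_mul_eq_mul_left (Nat.pos_of_ne_zero hpt) hxy
    rw [← Finset.sum_image (f := f) hinj]
    refine Finset.sum_subset ?_ ?_
    · intro a' ha'
      rw [Finset.mem_image] at ha'
      obtain ⟨b, hb, rfl⟩ := ha'
      rw [Finset.mem_filter, Nat.mem_divisors] at hb
      rw [Finset.mem_filter, Finset.mem_filter, Nat.mem_divisors]
      exact ⟨⟨⟨mul_dvd_mul_left _ hb.1.1, Nat.mul_ne_zero hpt hT00⟩, (hc17 b).2 hb.2⟩,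
        Dvd.dvd.mul_right (dvd_pow_self p ht) b⟩
    · intro a' ha' hn
      rw [Finset.mem_filter, Finset.mem_filter] at ha'
      obtain ⟨⟨h1, h2⟩, h3⟩ := ha'
      refine hf a' h1 h3 ?_
      by_contra h4
      apply hn
      rw [Nat.mem_divisors] at h1
      have h5 : a' * (p ^ t * T0 / a') = p ^ t * T0 := Nat.mul_div_cancel' h1.1
      have h6 : p ^ t ∣ a' := by
        refine Nat.Coprime.dvd_of_dvd_mul_right ?_ (Dvd.intro T0 h5.symm)
        exact Nat.Coprime.pow_left t ((Nat.Prime.coprime_iff_not_dvd hp).2 h4)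
      obtain ⟨b, rfl⟩ := h6
      rw [Finset.mem_image]
      refine ⟨b, ?_, rfl⟩
      rw [Finset.mem_filter, Nat.mem_divisors]
      exact ⟨⟨Nat.dvd_of_mul_dvd_mul_left (Nat.pos_of_ne_zero hpt) h1.1, hT00⟩, (hc17 b).1 h2⟩

/-- the flip lemma -/
theorem flip {n p S t T0 : ℕ} {B : Finset ℕ} (hp : p ∈ n.primeFactors) (hB : p ∉ B)
    (h17 : ¬ 17 ∣ n) (hT0 : ¬ p ∣ T0)
    (hST : ∀ q ∈ n.primeFactors, q ∣ S + p ^ t * T0) :
    WBs n (insert p B) S (p ^ t * T0) =
      kap n p (-((T0 : ℕ) : ℤ)) * Ps n p ^ t * WBs n B S (p ^ t * T0) := by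
  have hpp := Nat.prime_of_mem_primeFactors hp
  have hp17 : p ≠ 17 := by
    rintro rfl
    exact h17 (Nat.dvd_of_mem_primeFactors hp)
  have hT00 : T0 ≠ 0 := by
    rintro rfl
    exact hT0 (dvd_zero p)
  have hpt : 0 < p ^ t := pow_pos hpp.pos t
  unfold WBs
  rw [Finset.mul_sum]
  refine Finset.sum_congr rfl fun a ha => ?_
  rw [Nat.mem_divisors] at ha
  have haY : a * (S / a) = S := Nat.mul_div_cancel' ha.1
  by_cases ht : t = 0
  · subst ht
    simp only [pow_zero, one_mul, mul_one] at hST ⊢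
    rw [Finset.mul_sum]
    refine Finset.sum_congr rfl fun b hb => ?_
    rw [Finset.mem_filter, Nat.mem_divisors] at hb
    have hbX : b * (T0 / b) = T0 := Nat.mul_div_cancel' hb.1.1
    have h1 := wt_A (n := n) (p := p) (a := a) (b := b) (Y := S / a) (X0 := T0 / b) (t := 0)
      (B := B) hp hB (fun h => hT0 (h.trans hb.1.1))
      (fun h => hT0 (h.trans (Nat.div_dvd_of_dvd hb.1.1))) (fun q hq => by
        rw [pow_zero, one_mul, haY, hbX]; exact hST q hq)
    simp only [pow_zero, one_mul, mul_one, hbX] at h1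
    exact h1
  · rw [sum_div_split hpp hp17 hT0 ht, sum_div_split hpp hp17 hT0 ht, Finset.mul_sum]
    · refine Finset.sum_congr rfl fun b hb => ?_
      rw [Finset.mem_filter, Nat.mem_divisors] at hb
      have hb0 : 0 < b := Nat.pos_of_dvd_of_pos hb.1.1 (Nat.pos_of_ne_zero hT00)
      have hbX : b * (T0 / b) = T0 := Nat.mul_div_cancel' hb.1.1
      have e1 : p ^ t * T0 / b = p ^ t * (T0 / b) := Nat.mul_div_assoc _ hb.1.1
      have e2 : p ^ t * T0 / (p ^ t * b) = T0 / b := Nat.mul_div_mul_left _ _ hpt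
      have hpb : ¬ p ∣ b := fun h => hT0 (h.trans hb.1.1)
      have hpX : ¬ p ∣ T0 / b := fun h => hT0 (h.trans (Nat.div_dvd_of_dvd hb.1.1))
      have hall : ∀ q ∈ n.primeFactors, q ∣ a * (S / a) + p ^ t * (b * (T0 / b)) := by
        intro q hq
        rw [haY, hbX]
        exact hST q hq
      rw [e1, e2, wt_A hp hB hpb hpX hall, wt_B hp hB ht hpb hall, hbX]
      ring
    · intro a' ha' h1 h2
      rw [Nat.mem_divisors] at ha'
      refine wt_zero hp ?_ h1 h2
      rw [haY, Nat.mul_div_cancel' ha'.1]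
      exact hST p hp
    · intro a' ha' h1 h2
      rw [Nat.mem_divisors] at ha'
      refine wt_zero hp ?_ h1 h2
      rw [haY, Nat.mul_div_cancel' ha'.1]
      exact hST p hp

/-- the sign of the flip at `p` -/
def sig (n T p : ℕ) : ℤ :=
  kap n p (-((T / p ^ T.factorization p : ℕ) : ℤ)) * Ps n p ^ T.factorization p

/-- all flips -/
theorem flip_all {n S T : ℕ} (h17 : ¬ 17 ∣ n) (hT : T ≠ 0)
    (hST : ∀ q ∈ n.primeFactors, q ∣ S + T) (B : Finset ℕ) (hB : B ⊆ n.primeFactors) :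
    WBs n B S T = (∏ p ∈ B, sig n T p) * WBs n ∅ S T := by
  induction B using Finset.induction_on with
  | empty => rw [Finset.prod_empty, one_mul]
  | insert p B hpB ih =>
    have hp : p ∈ n.primeFactors := hB (Finset.mem_insert_self p B)
    have hpp := Nat.prime_of_mem_primeFactors hp
    have e : p ^ T.factorization p * (T / p ^ T.factorization p) = T :=
      Nat.ordProj_mul_ordCompl_eq_self T p
    have h1 := flip (n := n) (p := p) (S := S) (t := T.factorization p)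
      (T0 := T / p ^ T.factorization p) (B := B) hp hpB h17 (Nat.not_dvd_ordCompl hpp hT)
      (by rw [e]; exact hST)
    rw [e] at h1
    rw [h1, ih fun x hx => hB (Finset.mem_insert_of_mem hx), Finset.prod_insert hpB]
    unfold sig
    ring

end Pool.Agent.N871.G17
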